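import Pool.Agent.Helper95.LN.Stmts

/-!
# Row DEX: the field energy is the smeared Coulomb energy
-/

set_option autoImplicit false

namespace Pool.Agent.Helper27.LN

open MeasureTheory Filter Pool.Agent.Helper95.PW Pool.Agent.Helper95.LN

theorem dex_ker (h1 : ST_EID) (hk : 0 < kap) (b : ℝ) (hb : 0 < b) (p q : R3) :
    ∫ w, ∑ i, pd i (ph b) (w - p) * pd i (ph b) (w - q) = kap * Kf b (p - q) := by
  rw [(h1 b p q hb).2]
  unfold Kf
  have e : ∫ w, ph b (w - p) * et b (w - q) = ∫ w, ph b (w - (p - q)) * et b w := by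
    have h := integral_sub_right_eq_self (fun w : R3 => ph b (w - (p - q)) * et b w) q (μ := volume)
    rw [← h]
    congr 1
    ext w
    have e2 : w - q - (p - q) = w - p := by abel
    simp only [e2]
  rw [e]
  field_simp

theorem dex_sym (h1 : ST_EID) (hk : 0 < kap) (b : ℝ) (hb : 0 < b) (p q : R3) :
    Kf b (p - q) = Kf b (q - p) := by
  have e1 := dex_ker h1 hk b hb p q
  have e2 := dex_ker h1 hk b hb q p
  have e3 : (fun w : R3 => ∑ i, pd i (ph b) (w - p) * pd i (ph b) (w - q)) =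
      fun w => ∑ i, pd i (ph b) (w - q) * pd i (ph b) (w - p) := by
    ext w
    exact Finset.sum_congr rfl fun i _ => mul_comm _ _
  rw [e3, e2] at e1
  exact (mul_left_cancel₀ hk.ne' e1).symm

theorem dex_sq {ι : Type*} [Fintype ι] (q : ι → ℝ) (v : ι → Fin 3 → ℝ) :
    ∑ i, (∑ a, q a * v a i) ^ 2 = ∑ a, ∑ c, q a * q c * ∑ i, v a i * v c i := by
  calc ∑ i, (∑ a, q a * v a i) ^ 2 = ∑ i, ∑ a, ∑ c, (q a * v a i) * (q c * v c i) :=
        Finset.sum_congr rfl fun i _ => by rw [pow_two, Finset.sum_mul_sum]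
    _ = ∑ a, ∑ i, ∑ c, (q a * v a i) * (q c * v c i) := Finset.sum_comm
    _ = ∑ a, ∑ c, ∑ i, (q a * v a i) * (q c * v c i) :=
        Finset.sum_congr rfl fun a _ => Finset.sum_comm
    _ = ∑ a, ∑ c, q a * q c * ∑ i, v a i * v c i := by
        refine Finset.sum_congr rfl fun a _ => Finset.sum_congr rfl fun c _ => ?_
        rw [Finset.mul_sum]
        exact Finset.sum_congr rfl fun i _ => by ring

theorem dex_pd {n M : ℕ} {b : ℝ} (hs : ContDiff ℝ (⊤ : ℕ∞) (ph b)) (X : Fin M → R3)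
    (Z : Fin M → ℝ) (x : Cf n) (i : Fin 3) (w : R3) :
    pd i (Pt b X Z x) w = ∑ a : Fin n ⊕ Fin M, (Sum.elim (fun _ => (1 : ℝ)) (fun j => -Z j)) a *
      pd i (ph b) (w - Sum.elim x X a) := by
  have hd : Differentiable ℝ (ph b) := hs.differentiable (by simp)
  have hp : ∀ p : R3, HasFDerivAt (fun w => ph b (w - p)) (fderiv ℝ (ph b) (w - p)) w := by
    intro p
    have h := (hd (w - p)).hasFDerivAt.comp w ((hasFDerivAt_id w).sub_const p)
    rw [ContinuousLinearMap.comp_id] at h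
    exact h
  have h1 : HasFDerivAt (fun w => ∑ k, ph b (w - x k))
      (∑ k, fderiv ℝ (ph b) (w - x k)) w := HasFDerivAt.fun_sum fun k _ => hp (x k)
  have h2 : HasFDerivAt (fun w => ∑ j, Z j * ph b (w - X j))
      (∑ j, Z j • fderiv ℝ (ph b) (w - X j)) w :=
    HasFDerivAt.fun_sum fun j _ => (hp (X j)).const_mul (Z j)
  have h3 : HasFDerivAt (Pt b X Z x) ((∑ k, fderiv ℝ (ph b) (w - x k)) -
      ∑ j, Z j • fderiv ℝ (ph b) (w - X j)) w := h1.sub h2
  unfold pd
  rw [h3.fderiv, Fintype.sum_sum_type]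
  rw [sub_apply, sum_apply, sum_apply]
  simp only [Sum.elim_inl, Sum.elim_inr, one_mul, neg_mul, Finset.sum_neg_distrib,
    smul_apply, smul_eq_mul]
  rw [sub_eq_add_neg]

theorem DEX (h1 : ST_EID) (_h2 : ST_KK) (h3 : ST_PHA) (_h4 : ST_PHB) (h5 : ST_PHC) : ST_DEX := by
  intro b n M X Z x hb
  have hk : 0 < kap := h5.2.1
  have hs : ContDiff ℝ (⊤ : ℕ∞) (ph b) := (h3 b hb).1
  set q : Fin n ⊕ Fin M → ℝ := Sum.elim (fun _ => (1 : ℝ)) (fun j => -Z j) with hq
  set P : Fin n ⊕ Fin M → R3 := Sum.elim x X with hP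
  have e1 : (fun w => ∑ i, pd i (Pt b X Z x) w ^ 2) = fun w => ∑ a, ∑ c, q a * q c *
      ∑ i, pd i (ph b) (w - P a) * pd i (ph b) (w - P c) := by
    ext w
    simp only [dex_pd hs X Z x]
    exact dex_sq q (fun a i => pd i (ph b) (w - P a))
  have hi : ∀ a c, Integrable (fun w => q a * q c *
      ∑ i, pd i (ph b) (w - P a) * pd i (ph b) (w - P c)) := fun a c =>
    ((h1 b (P a) (P c) hb).1).const_mul _
  have hi2 : ∀ a, Integrable (fun w => ∑ c, q a * q c *
      ∑ i, pd i (ph b) (w - P a) * pd i (ph b) (w - P c)) := fun a =>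
    integrable_finsetSum _ fun c _ => hi a c
  refine ⟨?_, ?_⟩
  · rw [e1]
    exact integrable_finsetSum _ fun a _ => hi2 a
  · have e2 : Dn b X Z x = ∑ a, ∑ c, q a * q c * Kf b (P a - P c) := by
      unfold Dn
      rw [e1, integral_finsetSum _ fun a _ => hi2 a, Finset.mul_sum]
      refine Finset.sum_congr rfl fun a _ => ?_
      rw [integral_finsetSum _ fun c _ => hi a c, Finset.mul_sum]
      refine Finset.sum_congr rfl fun c _ => ?_
      rw [integral_const_mul, dex_ker h1 hk b hb]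
      field_simp
    rw [e2, Fintype.sum_sum_type]
    simp only [Fintype.sum_sum_type, hq, hP, Sum.elim_inl, Sum.elim_inr, one_mul]
    have e3 : ∑ j, (∑ k, -Z j * 1 * Kf b (X j - x k) +
        ∑ i, -Z j * -Z i * Kf b (X j - X i)) =
        -(∑ k, ∑ j, Z j * Kf b (x k - X j)) + ∑ j, ∑ i, Z j * Z i * Kf b (X j - X i) := by
      rw [Finset.sum_add_distrib, Finset.sum_comm (γ := Fin M), ← Finset.sum_neg_distrib]
      congr 1
      · refine Finset.sum_congr rfl fun k _ => ?_
        rw [← Finset.sum_neg_distrib]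
        refine Finset.sum_congr rfl fun j _ => ?_
        rw [dex_sym h1 hk b hb (X j) (x k)]
        ring
      · refine Finset.sum_congr rfl fun j _ => Finset.sum_congr rfl fun i _ => ?_
        ring
    rw [e3, Finset.sum_add_distrib]
    have e4 : ∑ k, ∑ j, -Z j * Kf b (x k - X j) = -(∑ k, ∑ j, Z j * Kf b (x k - X j)) := by
      simp only [neg_mul, Finset.sum_neg_distrib]
    rw [e4]
    ring

end Pool.Agent.Helper27.LN
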